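import Pool.Agent.W186.AI.Spec

set_option autoImplicit false

namespace Pool.Agent.W908.AI.GD2

open Complex Filter Topology Metric Set Pool.Agent.W186.AI
open H370.DG
open scoped Real

lemma norm_ge {n : ℕ} {s : ℂ} (hs : -1 < s.re) : (n : ℝ) + 1 ≤ ‖s + ((n : ℂ) + 2)‖ := by
  refine le_trans ?_ (re_le_norm _)
  simp only [add_re, natCast_re, re_ofNat]
  linarith

lemma ne0 {n : ℕ} {s : ℂ} (hs : -1 < s.re) : s + ((n : ℂ) + 2) ≠ 0 := by
  have h := norm_ge (n := n) hs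
  have hn : (0 : ℝ) ≤ n := Nat.cast_nonneg n
  intro h1
  rw [h1, norm_zero] at h
  linarith

lemma hasDerivAt_gd (n : ℕ) {s : ℂ} (hs : -1 < s.re) :
    HasDerivAt (gd n) (1 / (s + ((n : ℂ) + 2)) ^ 2) s := by
  have h1 : HasDerivAt (fun z : ℂ => z + ((n : ℂ) + 2)) 1 s := (hasDerivAt_id s).add_const _
  have h2 := (h1.inv (ne0 hs)).const_sub (Real.log ((n + 2 : ℝ) / (n + 1)) : ℂ)
  have h3 : gd n = fun z : ℂ => (Real.log ((n + 2 : ℝ) / (n + 1)) : ℂ) - (z + ((n : ℂ) + 2))⁻¹ := by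
    funext z
    unfold gd
    rw [one_div]
  rw [h3]
  refine h2.congr_deriv ?_
  rw [neg_div, neg_neg]

lemma norm_inv_sq_le (n : ℕ) {s : ℂ} (hs : -1 < s.re) :
    ‖1 / (s + ((n : ℂ) + 2)) ^ 2‖ ≤ 1 / ((n : ℝ) + 1) ^ 2 := by
  rw [norm_div, norm_pow, norm_one]
  have hn : (0 : ℝ) ≤ n := Nat.cast_nonneg n
  apply one_div_le_one_div_of_le (by positivity)
  exact pow_le_pow_left₀ (by positivity) (norm_ge hs) 2

lemma hasDerivAt_tsum_gd {s : ℂ} (hs : -1 < s.re) :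
    HasDerivAt (fun z => ∑' n, gd n z) (∑' n : ℕ, 1 / (s + ((n : ℂ) + 2)) ^ 2) s := by
  refine hasDerivAt_tsum_of_isPreconnected (g := gd)
    (g' := fun n s => 1 / (s + ((n : ℂ) + 2)) ^ 2)
    summable_inv_sq (isOpen_lt continuous_const continuous_re)
    (convex_halfSpace_re_gt (-1)).isPreconnected
    (fun n y hy => hasDerivAt_gd n hy) (fun n y hy => norm_inv_sq_le n hy)
    (y₀ := 0) (by simp) (summable_gd (by simp)) hs

/-- the derivative of `g` -/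
noncomputable def G1 (s : ℂ) : ℂ := 1 / s + 1 / (s - 1) - 1 / 2 * ((Real.log π : ℝ) : ℂ) +
  (-(1 / (s / 2)) - 1 / (s / 2 + 1) + ∑' n, gd n (s / 2)) * (1 / 2)

/-- the second derivative of `g` -/
noncomputable def G2 (s : ℂ) : ℂ := -(1 / s ^ 2) - 1 / (s - 1) ^ 2 +
  (1 / (s / 2) ^ 2 + 1 / (s / 2 + 1) ^ 2 + ∑' n : ℕ, 1 / (s / 2 + ((n : ℂ) + 2)) ^ 2) *
    (1 / 2) * (1 / 2)


lemma hasDerivAt_half (s : ℂ) : HasDerivAt (fun z : ℂ => z / 2) (1 / 2) s :=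
  (hasDerivAt_id s).div_const 2

lemma half_re (s : ℂ) : (s / 2).re = s.re / 2 := by
  simp

lemma hasDerivAt_g {s : ℂ} (hs : 1 < s.re) : HasDerivAt g (G1 s) s := by
  have h1 : HasDerivAt (fun z : ℂ => log z) (1 / s) s :=
    HasDerivAt.clog (hasDerivAt_id s) (Or.inl (by linarith))
  have h2 : HasDerivAt (fun z : ℂ => log (z - 1)) (1 / (s - 1)) s :=
    HasDerivAt.clog ((hasDerivAt_id s).sub_const _) (Or.inl (by simp; linarith))
  have h3 : HasDerivAt (fun z : ℂ => z / 2 * ((Real.log π : ℝ) : ℂ))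
      (1 / 2 * ((Real.log π : ℝ) : ℂ)) s := (hasDerivAt_half s).mul_const _
  have h4 : HasDerivAt (fun z : ℂ => lG (z / 2))
      ((-(1 / (s / 2)) - 1 / (s / 2 + 1) + ∑' n, gd n (s / 2)) * (1 / 2)) s :=
    HasDerivAt.comp s (hasDerivAt_lG (by rw [half_re]; linarith)) (hasDerivAt_half s)
  exact ((h1.add h2).sub h3).add h4

lemma hasDerivAt_inv {a : ℂ} {f : ℂ → ℂ} {f' : ℂ} (hf : HasDerivAt f f' a) (h : f a ≠ 0) :
    HasDerivAt (fun z => 1 / f z) (-(1 / f a ^ 2) * f') a := by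
  have h1 := hf.inv h
  simp only [one_div]
  refine h1.congr_deriv ?_
  rw [neg_div, div_eq_mul_inv]
  ring

lemma hasDerivAt_G1 {s : ℂ} (hs : 1 < s.re) : HasDerivAt G1 (G2 s) s := by
  have n1 : s ≠ 0 := by
    intro h
    rw [h] at hs
    simp at hs
    linarith
  have n2 : s - 1 ≠ 0 := by
    intro h
    have := congrArg re h
    simp at this
    linarith
  have n3 : s / 2 ≠ 0 := by
    intro h
    have := congrArg re h
    rw [half_re] at this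
    simp at this
    linarith
  have n4 : s / 2 + 1 ≠ 0 := by
    intro h
    have := congrArg re h
    rw [add_re, half_re] at this
    simp at this
    linarith
  have h1 : HasDerivAt (fun z : ℂ => 1 / z) (-(1 / s ^ 2) * 1) s :=
    hasDerivAt_inv (hasDerivAt_id s) n1
  have h2 : HasDerivAt (fun z : ℂ => 1 / (z - 1)) (-(1 / (s - 1) ^ 2) * 1) s :=
    hasDerivAt_inv ((hasDerivAt_id s).sub_const 1) n2
  have h3 : HasDerivAt (fun z : ℂ => 1 / (z / 2)) (-(1 / (s / 2) ^ 2) * (1 / 2)) s :=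
    hasDerivAt_inv (hasDerivAt_half s) n3
  have h4 : HasDerivAt (fun z : ℂ => 1 / (z / 2 + 1)) (-(1 / (s / 2 + 1) ^ 2) * (1 / 2)) s :=
    hasDerivAt_inv ((hasDerivAt_half s).add_const 1) n4
  have h5 : HasDerivAt (fun z : ℂ => ∑' n, gd n (z / 2))
      ((∑' n : ℕ, 1 / (s / 2 + ((n : ℂ) + 2)) ^ 2) * (1 / 2)) s :=
    HasDerivAt.comp s (hasDerivAt_tsum_gd (by rw [half_re]; linarith)) (hasDerivAt_half s)
  have h6 := ((h1.add h2).sub_const (1 / 2 * ((Real.log π : ℝ) : ℂ))).add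
    (((h3.neg.sub h4).add h5).mul_const (1 / 2))
  refine h6.congr_deriv ?_
  unfold G2
  ring

lemma deriv2_g {s : ℂ} (hs : 1 < s.re) : deriv (deriv g) s = G2 s := by
  have h : deriv g =ᶠ[𝓝 s] G1 := by
    have : {z : ℂ | 1 < z.re} ∈ 𝓝 s := (isOpen_lt continuous_const continuous_re).mem_nhds hs
    filter_upwards [this] with z hz
    exact (hasDerivAt_g hz).deriv
  rw [h.deriv_eq, (hasDerivAt_G1 hs).deriv]

/-- `1 / ‖z‖ ^ 2` if the real part is at least `1` -/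
lemma one_bd {z : ℂ} (hz : 1 ≤ z.re) : ‖1 / z ^ 2‖ ≤ 1 ∧ ‖1 / z ^ 2‖ * |z.im| ≤ 1 := by
  have h1 : 1 ≤ ‖z‖ := hz.trans (re_le_norm z)
  have h2 : |z.im| ≤ ‖z‖ := abs_im_le_norm z
  rw [norm_div, norm_pow, norm_one]
  have h3 : 1 ≤ ‖z‖ ^ 2 := one_le_pow₀ h1
  constructor
  · rw [div_le_one (by positivity)]
    exact h3
  · rw [one_div_mul_eq_div, div_le_one (by positivity)]
    nlinarith [abs_nonneg z.im]

lemma sq_bd {z : ℂ} (hz : 1 ≤ z.re) (n : ℕ) :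
    ((n : ℝ) + 1 + |z.im|) ^ 2 ≤ 2 * ‖z + ((n : ℂ) + 2)‖ ^ 2 := by
  rw [← normSq_eq_norm_sq, normSq_apply]
  simp only [add_re, natCast_re, re_ofNat, add_im, natCast_im, im_ofNat, add_zero]
  have hn : (0 : ℝ) ≤ n := Nat.cast_nonneg n
  have h1 : z.im * z.im = |z.im| * |z.im| := (abs_mul_abs_self _).symm
  rw [h1]
  have h2 : ((n : ℝ) + 1) ^ 2 ≤ (z.re + (n + 2)) ^ 2 := pow_le_pow_left₀ (by positivity)
    (by linarith) 2
  nlinarith [sq_nonneg ((n : ℝ) + 1 - |z.im|)]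

lemma term_bd {z : ℂ} (hz : 1 ≤ z.re) (hy : z.im ≠ 0) (n : ℕ) :
    ‖1 / (z + ((n : ℂ) + 2)) ^ 2‖ ≤ 2 * (1 / ((n : ℝ) + |z.im|) - 1 / (((n + 1 : ℕ) : ℝ) + |z.im|)) := by
  have h1 := sq_bd hz n
  have hn : (0 : ℝ) ≤ n := Nat.cast_nonneg n
  have h0 : 0 < |z.im| := abs_pos.2 hy
  have h2 : 0 < ‖z + ((n : ℂ) + 2)‖ ^ 2 := by
    have : 0 < ((n : ℝ) + 1 + |z.im|) ^ 2 := by positivity
    linarith
  rw [norm_div, norm_pow, norm_one]
  have h3 : 1 / ((n : ℝ) + |z.im|) - 1 / (((n + 1 : ℕ) : ℝ) + |z.im|) =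
      1 / (((n : ℝ) + |z.im|) * ((n : ℝ) + 1 + |z.im|)) := by
    push_cast
    have : (n : ℝ) + |z.im| ≠ 0 := by positivity
    have : (n : ℝ) + 1 + |z.im| ≠ 0 := by positivity
    field_simp
    ring
  rw [h3, mul_one_div, div_le_div_iff₀ h2 (by positivity)]
  nlinarith

lemma sum_bd {z : ℂ} (hz : 1 ≤ z.re) :
    ‖∑' n : ℕ, 1 / (z + ((n : ℂ) + 2)) ^ 2‖ ≤ ∑' n : ℕ, 1 / ((n : ℝ) + 1) ^ 2 ∧
    ‖∑' n : ℕ, 1 / (z + ((n : ℂ) + 2)) ^ 2‖ * |z.im| ≤ 2 := by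
  have hs : Summable (fun n : ℕ => ‖1 / (z + ((n : ℂ) + 2)) ^ 2‖) :=
    Summable.of_nonneg_of_le (fun n => norm_nonneg _) (fun n => norm_inv_sq_le n (by linarith))
      summable_inv_sq
  constructor
  · refine (norm_tsum_le_tsum_norm hs).trans ?_
    exact hs.tsum_le_tsum (fun n => norm_inv_sq_le n (by linarith)) summable_inv_sq
  · by_cases hy : z.im = 0
    · rw [hy, abs_zero, mul_zero]
      norm_num
    · have h0 : 0 < |z.im| := abs_pos.2 hy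
      have h1 : ‖∑' n : ℕ, 1 / (z + ((n : ℂ) + 2)) ^ 2‖ ≤ 2 * (1 / |z.im|) := by
        refine (norm_tsum_le_tsum_norm hs).trans ?_
        refine Real.tsum_le_of_sum_range_le (fun n => norm_nonneg _) fun N => ?_
        refine (Finset.sum_le_sum fun n _ => term_bd hz hy n).trans ?_
        rw [← Finset.mul_sum]
        have h2 := Finset.sum_range_sub' (fun n : ℕ => 1 / ((n : ℝ) + |z.im|)) N
        rw [h2]
        have h3 : 0 ≤ 1 / ((N : ℝ) + |z.im|) := by positivity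
        simp only [Nat.cast_zero, zero_add]
        linarith
      calc _ ≤ 2 * (1 / |z.im|) * |z.im| := mul_le_mul_of_nonneg_right h1 h0.le
        _ = 2 := by
          field_simp

theorem main : S_GD2 := by
  obtain ⟨C, hC⟩ : ∃ C : ℝ, C = ∑' n : ℕ, 1 / ((n : ℝ) + 1) ^ 2 := ⟨_, rfl⟩
  have hC0 : 0 ≤ C := by
    rw [hC]
    exact tsum_nonneg fun n => by positivity
  refine ⟨C + 10, fun s hs => ?_⟩
  rw [deriv2_g (by linarith)]
  obtain ⟨a1, a2⟩ := one_bd (z := s) (by linarith)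
  obtain ⟨b1, b2⟩ := one_bd (z := s - 1) (by simp; linarith)
  obtain ⟨c1, c2⟩ := one_bd (z := s / 2) (by rw [half_re]; linarith)
  obtain ⟨d1, d2⟩ := one_bd (z := s / 2 + 1) (by rw [add_re, half_re]; simp; linarith)
  obtain ⟨e1, e2⟩ := sum_bd (z := s / 2) (by rw [half_re]; linarith)
  rw [← hC] at e1
  have i1 : (s - 1).im = s.im := by simp
  have i2 : (s / 2).im = s.im / 2 := by simp
  have i3 : (s / 2 + 1).im = s.im / 2 := by simp
  rw [i1] at b2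
  rw [i2] at c2 e2
  rw [i3] at d2
  have i4 : |s.im / 2| = |s.im| / 2 := by
    rw [abs_div]
    norm_num
  rw [i4] at c2 d2 e2
  have key : ‖G2 s‖ ≤ ‖1 / s ^ 2‖ + ‖1 / (s - 1) ^ 2‖ + (‖1 / (s / 2) ^ 2‖ +
      ‖1 / (s / 2 + 1) ^ 2‖ + ‖∑' n : ℕ, 1 / (s / 2 + ((n : ℂ) + 2)) ^ 2‖) / 4 := by
    unfold G2
    refine (norm_add_le _ _).trans ?_
    refine add_le_add ?_ ?_
    · refine (norm_sub_le _ _).trans ?_
      rw [norm_neg]
    · rw [norm_mul, norm_mul]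
      have h1 : ‖(1 / 2 : ℂ)‖ = 1 / 2 := by norm_num
      rw [h1]
      have h2 := norm_add₃_le (a := 1 / (s / 2) ^ 2) (b := 1 / (s / 2 + 1) ^ 2)
        (c := ∑' n : ℕ, 1 / (s / 2 + ((n : ℂ) + 2)) ^ 2)
      linarith
  constructor
  · linarith
  · have h3 := mul_le_mul_of_nonneg_right key (abs_nonneg s.im)
    refine h3.trans ?_
    nlinarith

end Pool.Agent.W908.AI.GD2
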